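import Pool.Agent.H83.HE.Stm

set_option autoImplicit false

namespace Pool.Agent.H98.HE

open Pool.Agent.H83.HE Polynomial

theorem t_RED : S_RED := by
  intro q a12 a22 a13 a23 a33 m n hdet hirr
  set M := H 0 1 a12 a22 q a13 a23 a33 m n with hM
  have hmon : M.charpoly.Monic := Matrix.charpoly_monic M
  have hdeg : M.charpoly.natDegree = 3 := by
    rw [Matrix.charpoly_natDegree_eq_dim]
    rfl
  have h1 : ¬ Irreducible M.charpoly := by
    intro h
    apply hirr
    exact (hmon.irreducible_iff_irreducible_map_fraction_map (K := ℚ)).1 h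
  rw [hmon.irreducible_iff_roots_eq_zero_of_degree_le_three (by omega) (by omega)] at h1
  obtain ⟨x, hx⟩ := Multiset.exists_mem_of_ne_zero h1
  have hx0 : M.charpoly.eval x = 0 := (mem_roots'.1 hx).2
  rw [Matrix.eval_charpoly, Matrix.det_fin_three] at hx0
  rw [Matrix.det_fin_three] at hdet
  simp only [Matrix.sub_apply, Matrix.scalar_apply, Matrix.diagonal_apply] at hx0
  simp [hM, H] at hx0 hdet
  have h2 : x * (x ^ 2 - (a22 + a33 + q * n) * x + (a22 * a33 - a12 - q * m - q * a23)) = 1 := by
    linear_combination hx0 + hdet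
  rcases Int.eq_one_or_neg_one_of_mul_eq_one h2 with h | h
  · left
    subst h
    linarith
  · right
    subst h
    linarith

end Pool.Agent.H98.HE
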